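import Pool.Agent.J4H34.AR.R3
import Mathlib.NumberTheory.NumberField.Discriminant.Different

/-!
The completed L-function of a ray class character: facts used in the statements of the results.
-/

set_option autoImplicit false
set_option linter.unusedSectionVars false

open NumberField Complex Set Filter Topology
open scoped ComplexConjugate Nat

namespace Pool.Agent.J4H34.AR

open Pool.Agent.Y773 (LI Ov zz GG FEd)
open Pool.Agent.Y773.G (IsPrimChar IsModChar ex fe_prim prod_ex sg rl)
open H353.E (Datum)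
open Pool.Agent.J4H34.HF

variable {K : Type} [Field K] [NumberField K]

lemma cnd_eq (𝔣 : Ideal (𝓞 K)) :
    cnd 𝔣 = ((Ideal.absNorm 𝔣 * (discr K).natAbs : ℕ) : ℝ) := by
  unfold cnd
  rw [absNorm_differentIdeal K]

open Classical in
lemma GG_eq (R : ℝ) (e : InfinitePlace K → ℕ) (s : ℂ) : GG R (ex e) s = (R : ℂ) ^ (s / 2) *
    ∏ w : InfinitePlace K, if w.IsReal then Gammaℝ (s + e w) else Gammaℂ s := by
  unfold GG
  congr 1
  rw [prod_ex e (fun k => Complex.Gammaℝ (s + (k : ℕ)))]
  refine Finset.prod_congr rfl fun w _ => ?_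
  split_ifs
  · rfl
  · rw [Nat.cast_zero, Nat.cast_one, add_zero, Gammaℝ_mul_Gammaℝ_add_one]

lemma GG_ne {R : ℝ} (hR : 0 < R) (e : InfinitePlace K → ℕ) {s : ℂ} (hs : 0 < s.re) :
    GG R (ex e) s ≠ 0 := by
  unfold GG
  refine mul_ne_zero ?_ (Finset.prod_ne_zero_iff.mpr fun u _ => ?_)
  · rw [Ne, cpow_eq_zero_iff]
    rintro ⟨h, -⟩
    exact hR.ne' (by exact_mod_cast h)
  · apply Gammaℝ_ne_zero_of_re_pos
    have : (0 : ℝ) ≤ ex e u := Nat.cast_nonneg _
    simp only [add_re, natCast_re]
    linarith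

open Classical in
lemma sg_eq {e : InfinitePlace K → ℕ} (hc : ∀ w : InfinitePlace K, w.IsComplex → e w = 0) {x : K}
    (hx : x ≠ 0) : sg e x = ∏ w : InfinitePlace K, (if 0 < (w.embedding x).re then (1 : ℂ) else -1) ^ e w := by
  unfold sg
  refine Finset.prod_congr rfl fun w _ => ?_
  by_cases hw : w.IsReal
  · congr 1
    have h1 : rl w x = (w.embedding x).re := by
      change (if w.IsReal then (w.embedding x).re else w x) = _
      rw [if_pos hw]
    have h2 : (w.embedding x).re ≠ 0 := by
      intro h3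
      have h4 : rl w x = 0 := by rw [h1, h3]
      exact hx ((map_eq_zero (rl w)).mp h4)
    rw [h1]
    rcases lt_or_gt_of_ne h2 with h5 | h5
    · rw [sign_neg h5, if_neg (by linarith)]
      simp
    · rw [sign_pos h5, if_pos h5]
      simp
  · rw [hc w (InfinitePlace.not_isReal_iff_isComplex.mp hw), pow_zero, pow_zero]

/-- GRH in terms of `L` and of `Ξ` -/
lemma grh_iff {R : ℝ} (hR : 0 < R) {e : InfinitePlace K → ℕ} {F Ξ : ℂ → ℂ} {w : ℂ}
    (h1 : ∀ s : ℂ, 0 < s.re → Ξ s = GG R (ex e) s * F s)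
    (h2 : ∀ s : ℂ, Ξ s = w * conj (Ξ (1 - conj s))) :
    (∀ s : ℂ, 1 / 2 < s.re → F s ≠ 0) ↔ ∀ s, Ξ s = 0 → s.re = 1 / 2 := by
  constructor
  · intro H s hs
    rcases lt_trichotomy s.re (1 / 2) with h | h | h
    · exfalso
      have h3 : (1 - conj s).re = 1 - s.re := by simp
      have h4 : Ξ (1 - conj s) = 0 := by
        rw [h2, show 1 - conj (1 - conj s) = s by simp, hs]
        simp
      rw [h1 _ (by rw [h3]; linarith)] at h4
      rcases mul_eq_zero.mp h4 with h5 | h5
      · exact GG_ne hR e (by rw [h3]; linarith) h5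
      · exact H _ (by rw [h3]; linarith) h5
    · exact h
    · exfalso
      rw [h1 _ (by linarith)] at hs
      rcases mul_eq_zero.mp hs with h5 | h5
      · exact GG_ne hR e (by linarith) h5
      · exact H _ h h5
  · intro H s hs h3
    have h4 : Ξ s = 0 := by rw [h1 s (by linarith), h3, mul_zero]
    have := H s h4
    linarith

end Pool.Agent.J4H34.AR
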