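import Mathlib

/-!
Factorization of local Euler factors.
-/

set_option autoImplicit false

open Complex Polynomial

namespace Pool.Agent.J4H34.AR

lemma lp (g : ℕ → ℂ) (f : ℕ) : ((List.range f).map g).prod = ∏ i ∈ Finset.range f, g i := by
  induction f with
  | zero => simp
  | succ n ih =>
    rw [List.range_succ, List.map_append, List.prod_append, ih, Finset.prod_range_succ]
    simp

lemma one_factor (c : ℂ) (hc : ‖c‖ ≤ 1) {f : ℕ} (hf : 1 ≤ f) : ∃ l : List ℂ, l.length = f ∧
    (∀ a ∈ l, ‖a‖ ≤ 1) ∧ ∀ x : ℂ, 1 - c * x ^ f = (l.map fun a => 1 - a * x).prod := by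
  obtain ⟨r, hr⟩ : ∃ r : ℂ, r ^ f = c := IsAlgClosed.exists_pow_nat_eq c (by omega)
  have hr1 : ‖r‖ ≤ 1 := by
    by_contra hcon
    push Not at hcon
    have h1 : 1 < ‖r‖ ^ f := one_lt_pow₀ hcon (by omega)
    rw [← norm_pow, hr] at h1
    linarith
  have hζ := Complex.isPrimitiveRoot_exp f (by omega)
  set ζ := Complex.exp (2 * Real.pi * Complex.I / f) with hζd
  have hfac := X_pow_sub_C_eq_prod hζ (by omega : 0 < f) hr
  refine ⟨(List.range f).map fun i => ζ ^ i * r, by simp, ?_, fun x => ?_⟩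
  · intro a ha
    rw [List.mem_map] at ha
    obtain ⟨i, _, rfl⟩ := ha
    rw [norm_mul, norm_pow, hζ.norm'_eq_one (by omega), one_pow, one_mul]
    exact hr1
  · rw [List.map_map]
    change _ = ((List.range f).map fun i => 1 - ζ ^ i * r * x).prod
    rw [lp]
    by_cases hx : x = 0
    · subst hx
      simp [show f ≠ 0 by omega]
    · have h1 := congrArg (Polynomial.eval (1 / x)) hfac
      rw [Polynomial.eval_prod] at h1
      simp only [eval_sub, eval_pow, eval_X, eval_C] at h1
      have h2 : 1 - c * x ^ f = x ^ f * ((1 / x) ^ f - c) := by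
        rw [one_div, inv_pow]
        have : x ^ f ≠ 0 := pow_ne_zero _ hx
        field_simp
      rw [h2, h1]
      have h4 : x ^ f = ∏ i ∈ Finset.range f, x := by
        rw [Finset.prod_const, Finset.card_range]
      rw [h4, ← Finset.prod_mul_distrib]
      refine Finset.prod_congr rfl fun i _ => ?_
      field_simp

lemma list_factor {ι : Type} (S : Finset ι) (c : ι → ℂ) (f : ι → ℕ) (hc : ∀ i ∈ S, ‖c i‖ ≤ 1)
    (hf : ∀ i ∈ S, 1 ≤ f i) : ∃ l : List ℂ, l.length = ∑ i ∈ S, f i ∧
    (∀ a ∈ l, ‖a‖ ≤ 1) ∧ ∀ x : ℂ, ∏ i ∈ S, (1 - c i * x ^ f i) = (l.map fun a => 1 - a * x).prod := by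
  classical
  induction S using Finset.induction_on with
  | empty => exact ⟨[], by simp, by simp, by simp⟩
  | insert i S hi ih =>
    obtain ⟨l, h1, h2, h3⟩ := ih (fun j hj => hc j (Finset.mem_insert_of_mem hj))
      fun j hj => hf j (Finset.mem_insert_of_mem hj)
    obtain ⟨l', h1', h2', h3'⟩ := one_factor (c i) (hc i (Finset.mem_insert_self i S))
      (hf i (Finset.mem_insert_self i S))
    refine ⟨l' ++ l, ?_, ?_, fun x => ?_⟩
    · rw [List.length_append, h1, h1', Finset.sum_insert hi]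
    · intro a ha
      rcases List.mem_append.mp ha with h | h
      · exact h2' a h
      · exact h2 a h
    · rw [Finset.prod_insert hi, h3, h3', List.map_append, List.prod_append]

/-- an Euler factor of degree at most `n` is a product of `n` linear factors -/
theorem fin_factor {ι : Type} (S : Finset ι) (c : ι → ℂ) (f : ι → ℕ) (hc : ∀ i ∈ S, ‖c i‖ ≤ 1)
    (hf : ∀ i ∈ S, 1 ≤ f i) {n : ℕ} (hn : ∑ i ∈ S, f i ≤ n) : ∃ α : Fin n → ℂ, (∀ j, ‖α j‖ ≤ 1) ∧
    ∀ x : ℂ, ∏ i ∈ S, (1 - c i * x ^ f i) = ∏ j, (1 - α j * x) := by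
  obtain ⟨l, h1, h2, h3⟩ := list_factor S c f hc hf
  obtain ⟨l', hlen, hmem, hprod⟩ : ∃ l' : List ℂ, l'.length = n ∧ (∀ a ∈ l', ‖a‖ ≤ 1) ∧
      ∀ x : ℂ, (l.map fun a => 1 - a * x).prod = (l'.map fun a => 1 - a * x).prod := by
    refine ⟨l ++ List.replicate (n - l.length) (0 : ℂ), ?_, fun a ha => ?_, fun x => ?_⟩
    · rw [List.length_append, List.length_replicate]
      omega
    · rcases List.mem_append.mp ha with h | h
      · exact h2 a h
      · rw [List.eq_of_mem_replicate h]
        simp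
    · rw [List.map_append, List.prod_append, List.map_replicate, List.prod_replicate]
      simp
  subst hlen
  refine ⟨fun j => l'.get j, fun j => hmem _ (List.get_mem _ _), fun x => ?_⟩
  rw [h3, hprod]
  have h5 : (l'.map fun a => 1 - a * x) = List.ofFn fun j : Fin l'.length => 1 - l'.get j * x := by
    conv_lhs => rw [← List.ofFn_get l', List.map_ofFn]
    rfl
  rw [h5, List.prod_ofFn]

end Pool.Agent.J4H34.AR
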