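import Pool.Agent.J4H34.AR.R1
import Pool.Agent.Y773.HK.Eul

/-!
The local factors of the L-function of a character of ideals.
-/

set_option autoImplicit false

open NumberField Complex Ideal

namespace Pool.Agent.J4H34.AR

open Pool.Agent.Y773 (Ov Ov_iff prime_of_Ov zz natCast_pow_cpow)

variable {K : Type} [Field K] [NumberField K]

/-- the local factor at `p` is a product of `[K : ℚ]` linear factors -/
theorem loc_factor (ψ : Ideal (𝓞 K) →*₀ ℂ) (hψ : ∀ 𝔞, ‖ψ 𝔞‖ ≤ 1) (p : Nat.Primes) :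
    ∃ α : Fin (Module.finrank ℚ K) → ℂ, (∀ j, ‖α j‖ ≤ 1) ∧
      ∀ s : ℂ, ∏ᶠ 𝔭 ∈ Ov K p, (1 - zz ψ s 𝔭) = ∏ j, (1 - α j * ((p : ℕ) : ℂ) ^ (-s)) := by
  classical
  have hpp := p.2
  have : Fact (p : ℕ).Prime := ⟨hpp⟩
  have hmax : (span {((p : ℕ) : ℤ)}).IsMaximal := Int.ideal_span_isMaximal_of_prime p
  have hp0 : (span {((p : ℕ) : ℤ)}) ≠ ⊥ := by
    rw [Ne, span_singleton_eq_bot]
    exact_mod_cast hpp.ne_zero
  have hfin : ((span {((p : ℕ) : ℤ)}).primesOver (𝓞 K)).Finite := IsDedekindDomain.primesOver_finite _ _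
  have hft : Fintype ((span {((p : ℕ) : ℤ)}).primesOver (𝓞 K)) := hfin.fintype
  have hsum := sum_ramification_inertia_eq_finrank (span {((p : ℕ) : ℤ)}) (𝓞 K)
  rw [RingOfIntegers.rank] at hsum
  have hset : Ov K p = (span {((p : ℕ) : ℤ)}).primesOver (𝓞 K) := by
    ext 𝔭
    constructor
    · intro h
      exact (Ov_iff hpp (prime_of_Ov hpp h)).mp h
    · intro h
      have hpr : Prime 𝔭 := by
        have h1 : 𝔭.IsPrime := h.1
        refine Ideal.prime_of_isPrime ?_ h1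
        rintro rfl
        have h2 := h.2
        have h3 := h2.over
        apply hp0
        rw [h3]
        ext x
        simp only [Ideal.mem_comap, Ideal.under, Ideal.mem_bot]
        simp
      exact (Ov_iff hpp hpr).mpr h
  set S : Finset (Ideal (𝓞 K)) := hfin.toFinset with hS
  have hprime : ∀ 𝔭 ∈ S, Prime 𝔭 ∧ 𝔭 ∈ (span {((p : ℕ) : ℤ)}).primesOver (𝓞 K) := fun 𝔭 h𝔭 => by
    rw [hS, Set.Finite.mem_toFinset] at h𝔭
    refine ⟨?_, h𝔭⟩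
    rw [← hset] at h𝔭
    exact prime_of_Ov hpp h𝔭
  have hnorm : ∀ 𝔭 ∈ S, Ideal.absNorm 𝔭 = (p : ℕ) ^ (𝔭.inertiaDeg ℤ) := fun 𝔭 h𝔭 =>
    Pool.Agent.Y772.DK.norm_over hpp (hprime 𝔭 h𝔭).2
  have hdeg : ∀ 𝔭 ∈ S, 1 ≤ 𝔭.inertiaDeg ℤ := fun 𝔭 h𝔭 =>
    Nat.one_le_iff_ne_zero.mpr (Pool.Agent.Y772.DK.deg_pos hpp (hprime 𝔭 h𝔭).1 (hprime 𝔭 h𝔭).2)
  have hle : ∑ 𝔭 ∈ S, 𝔭.inertiaDeg ℤ ≤ Module.finrank ℚ K := by
    rw [← hsum]
    have e4 : ∑ q : (span {((p : ℕ) : ℤ)}).primesOver (𝓞 K), q.1.ramificationIdx ℤ *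
        q.1.inertiaDeg ℤ = ∑ P ∈ ((span {((p : ℕ) : ℤ)}).primesOver (𝓞 K)).toFinset,
          P.ramificationIdx ℤ * P.inertiaDeg ℤ :=
      Finset.sum_set_coe _ (f := fun P : Ideal (𝓞 K) => P.ramificationIdx ℤ * P.inertiaDeg ℤ)
    have e5 : S = ((span {((p : ℕ) : ℤ)}).primesOver (𝓞 K)).toFinset := by
      ext P
      simp [hS]
    rw [e4, e5]
    refine Finset.sum_le_sum fun P hP => ?_
    rw [← e5] at hP
    have h5 : P.IsPrime := isPrime_of_prime (hprime P hP).1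
    have h8 := (hprime P hP).2
    have h6 : 1 ≤ P.ramificationIdx ℤ := ramificationIdx_pos P ℤ
    exact Nat.le_mul_of_pos_left _ h6
  obtain ⟨α, h1, h2⟩ := fin_factor S (fun 𝔭 => ψ 𝔭) (fun 𝔭 => 𝔭.inertiaDeg ℤ) (fun 𝔭 _ => hψ 𝔭) hdeg hle
  refine ⟨α, h1, fun s => ?_⟩
  rw [← h2, hset, finprod_mem_eq_finite_toFinset_prod _ hfin]
  refine Finset.prod_congr rfl fun 𝔭 h𝔭 => ?_
  unfold zz
  rw [hnorm 𝔭 h𝔭, natCast_pow_cpow]

end Pool.Agent.J4H34.AR
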