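import Pool.Agent.J4H34.AR.R2
import Pool.Agent.Y773.HG.FeK
import Pool.Agent.Y772.HG.Sgn
import Pool.Agent.J4H34.HF.H11

/-!
The data of the L-function of a ray class character of an arbitrary number field.
-/

set_option autoImplicit false
set_option linter.unusedSectionVars false

open NumberField Complex Set Filter Topology
open scoped ComplexConjugate

namespace Pool.Agent.J4H34.AR

open Pool.Agent.Y773 (LI Ov zz GG FEd)
open Pool.Agent.Y773.G (IsPrimChar IsModChar ex fe_prim)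
open H353.E (Datum)
open Pool.Agent.J4H34.HF

section ext

variable {ι : Type} [Fintype ι]

lemma GG_diff {R : ℝ} (hR : 0 < R) (e : ι → ℕ) {s : ℂ} (hs : 0 < s.re) :
    DifferentiableAt ℂ (GG R e) s := by
  unfold GG
  have hR0 : (R : ℂ) ≠ 0 := by exact_mod_cast hR.ne'
  refine DifferentiableAt.mul ?_ ?_
  · exact DifferentiableAt.const_cpow (by fun_prop) (Or.inl hR0)
  · refine DifferentiableAt.fun_finsetProd fun i _ => ?_
    have h1 : 0 < (s + e i).re := by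
      simp
      have : (0 : ℝ) ≤ e i := Nat.cast_nonneg _
      linarith
    have h2 : DifferentiableAt ℂ Gammaℝ (s + e i) := by
      unfold Gammaℝ
      refine DifferentiableAt.mul ?_ ?_
      · exact DifferentiableAt.const_cpow (by fun_prop) (Or.inl (by exact_mod_cast Real.pi_ne_zero))
      · refine DifferentiableAt.comp (g := Gamma) (f := fun z => z / 2) _ ?_ (by fun_prop)
        refine differentiableAt_Gamma _ fun k hk => ?_
        have h3 := congrArg Complex.re hk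
        rw [show (2 : ℂ) = ((2 : ℝ) : ℂ) by norm_num, Complex.div_ofReal_re] at h3
        simp only [neg_re, natCast_re] at h3
        have : (0 : ℝ) ≤ k := Nat.cast_nonneg _
        linarith
    exact DifferentiableAt.comp (g := Gammaℝ) s h2 (by fun_prop)

lemma conj_diff' {G : ℂ → ℂ} (w : ℂ) {s : ℂ} (h : DifferentiableAt ℂ G (1 - conj s)) :
    DifferentiableAt ℂ (fun z => w * conj (G (1 - conj z))) s := by
  have h1 : DifferentiableAt ℂ (fun z => G (1 + z)) (-conj s) := by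
    have e : 1 + -conj s = 1 - conj s := by ring
    rw [← e] at h
    exact h.comp _ (by fun_prop)
  have h2 : DifferentiableAt ℂ (fun z => G (1 - z)) (conj s) := by
    have := h.comp (conj s) (f := fun z => 1 - z) (by fun_prop)
    exact this
  have h3 : DifferentiableAt ℂ (conj ∘ (fun z => G (1 - z)) ∘ conj) s := by
    rw [differentiableAt_conj_conj_iff]
    exact h2
  exact h3.const_mul w

/-- the completed function is entire -/
theorem ext_of {R : ℝ} (hR : 0 < R) {e : ι → ℕ} {F : ℂ → ℂ} (h : FEd R e F) :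
    ∃ Ξ : ℂ → ℂ, Differentiable ℂ Ξ ∧ (∃ w : ℂ, ‖w‖ = 1 ∧ ∀ s, Ξ s = w * conj (Ξ (1 - conj s))) ∧
      (∀ s : ℂ, 0 < s.re → Ξ s = GG R e s * F s) ∧
      ∀ a b : ℝ, ∃ M : ℝ, ∀ s : ℂ, a ≤ s.re → s.re ≤ b → ‖Ξ s‖ ≤ M := by
  classical
  obtain ⟨w, hw, hfe⟩ := h.fe
  set G : ℂ → ℂ := fun s => GG R e s * F s with hG
  have hGd : ∀ s : ℂ, 0 < s.re → DifferentiableAt ℂ G s := fun s hs =>
    (GG_diff hR e hs).mul (h.diff s)
  set H : ℂ → ℂ := fun s => w * conj (G (1 - conj s)) with hH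
  have hHd : ∀ s : ℂ, s.re < 1 → DifferentiableAt ℂ H s := fun s hs =>
    conj_diff' w (hGd _ (by simp; linarith))
  have heq : ∀ s : ℂ, 0 < s.re → s.re < 1 → G s = H s := by
    intro s h0 h1
    have hc1 : Tendsto (fun ε : ℝ => G (s + ε * I)) (𝓝[>] 0) (𝓝 (G s)) := by
      have h2 : ContinuousAt (fun ε : ℝ => G (s + ε * I)) 0 := by
        have h3 : ContinuousAt G (s + (0 : ℝ) * I) := by
          have := (hGd s h0).continuousAt
          simpa using this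
        exact ContinuousAt.comp (f := fun ε : ℝ => s + ε * I) h3 (by fun_prop)
      have h4 : Tendsto (fun ε : ℝ => G (s + ε * I)) (𝓝 0) (𝓝 (G (s + (0 : ℝ) * I))) := h2
      simp only [ofReal_zero, zero_mul, add_zero] at h4
      exact h4.mono_left nhdsWithin_le_nhds
    have hc2 : Tendsto (fun ε : ℝ => H (s + ε * I)) (𝓝[>] 0) (𝓝 (H s)) := by
      have h2 : ContinuousAt (fun ε : ℝ => H (s + ε * I)) 0 := by
        have h3 : ContinuousAt H (s + (0 : ℝ) * I) := by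
          have := (hHd s h1).continuousAt
          simpa using this
        exact ContinuousAt.comp (f := fun ε : ℝ => s + ε * I) h3 (by fun_prop)
      have h4 : Tendsto (fun ε : ℝ => H (s + ε * I)) (𝓝 0) (𝓝 (H (s + (0 : ℝ) * I))) := h2
      simp only [ofReal_zero, zero_mul, add_zero] at h4
      exact h4.mono_left nhdsWithin_le_nhds
    have hev : ∀ᶠ ε : ℝ in 𝓝[>] 0, G (s + ε * I) = H (s + ε * I) := by
      have h2 : ∀ᶠ ε : ℝ in 𝓝[>] 0, s.im + ε ≠ 0 := by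
        rcases eq_or_ne (s.im) 0 with h3 | h3
        · filter_upwards [self_mem_nhdsWithin] with ε hε
          have : (0 : ℝ) < ε := hε
          intro h4
          linarith
        · have h4 : ∀ᶠ ε : ℝ in 𝓝 0, s.im + ε ≠ 0 := by
            have h5 : ContinuousAt (fun ε : ℝ => s.im + ε) 0 := by fun_prop
            apply h5.eventually_ne
            simpa using h3
          exact h4.filter_mono nhdsWithin_le_nhds
      filter_upwards [h2] with ε hε
      apply hfe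
      simpa using hε
    exact tendsto_nhds_unique (hc1.congr' hev) hc2
  set X : ℂ → ℂ := fun s => if 0 < s.re then G s else H s with hX
  have hXd : Differentiable ℂ X := fun s => by
    by_cases hs : 0 < s.re
    · refine (hGd s hs).congr_of_eventuallyEq ?_
      have h2 : {z : ℂ | 0 < z.re} ∈ 𝓝 s := (isOpen_lt continuous_const continuous_re).mem_nhds hs
      filter_upwards [h2] with z hz
      exact if_pos hz
    · have hs1 : s.re < 1 := by linarith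
      refine (hHd s hs1).congr_of_eventuallyEq ?_
      have h2 : {z : ℂ | z.re < 1} ∈ 𝓝 s := (isOpen_lt continuous_re continuous_const).mem_nhds hs1
      filter_upwards [h2] with z hz
      by_cases hz0 : 0 < z.re
      · rw [hX]
        beta_reduce
        rw [if_pos hz0]
        exact heq z hz0 hz
      · rw [hX]
        beta_reduce
        rw [if_neg hz0]
  have hfeX : ∀ s, X s = w * conj (X (1 - conj s)) := fun s => by
    have e1 : (1 - conj s).re = 1 - s.re := by simp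
    have e2 : 1 - conj (1 - conj s) = s := by simp
    have hww : ∀ z : ℂ, w * conj (w * conj z) = z := fun z => by
      rw [map_mul, conj_conj, ← mul_assoc, Complex.mul_conj, Complex.normSq_eq_norm_sq, hw]
      simp
    rw [hX]
    beta_reduce
    rw [e1]
    by_cases h0 : 0 < s.re
    · rw [if_pos h0]
      by_cases h1 : 0 < 1 - s.re
      · rw [if_pos h1]
        exact heq s h0 (by linarith)
      · rw [if_neg h1]
        simp only [hH]
        rw [e2, hww]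
    · rw [if_neg h0, if_pos (by linarith)]
  have hnorm : ∀ s, ‖X s‖ = ‖X (1 - conj s)‖ := fun s => by
    rw [hfeX s, norm_mul, hw, one_mul, RCLike.norm_conj]
  refine ⟨X, hXd, ⟨w, hw, hfeX⟩, fun s hs => if_pos hs, fun a b => ?_⟩
  set B : ℝ := max (max b (1 - a)) 1 with hB
  have hB1 : 1 ≤ B := le_max_right _ _
  obtain ⟨M₁, hM₁⟩ := h.vert 0 B
  have hcomp : IsCompact (Set.Icc (0 : ℝ) B ×ℂ Set.Icc (-1 : ℝ) 1) :=
    isCompact_Icc.reProdIm isCompact_Icc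
  obtain ⟨M₂, hM₂⟩ := hcomp.exists_bound_of_continuousOn hXd.continuous.continuousOn
  have hpos : ∀ s : ℂ, 0 < s.re → s.re ≤ B → ‖X s‖ ≤ max M₁ M₂ := fun s h0 h1 => by
    rcases le_or_gt 1 |s.im| with h2 | h2
    · refine le_trans ?_ (le_max_left _ _)
      have h3 : X s = GG R e s * F s := if_pos h0
      rw [h3]
      exact hM₁ s h0.le h1 h2
    · refine le_trans ?_ (le_max_right _ _)
      refine hM₂ s ?_
      rw [Complex.mem_reProdIm]
      rw [abs_lt] at h2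
      exact ⟨⟨h0.le, h1⟩, h2.1.le, h2.2.le⟩
  refine ⟨max M₁ M₂, fun s h1 h2 => ?_⟩
  rcases lt_or_ge 0 s.re with h3 | h3
  · exact hpos s h3 (h2.trans ((le_max_left _ _).trans (le_max_left _ _)))
  · rw [hnorm]
    refine hpos _ (by simp; linarith) ?_
    have h4 : (1 - conj s).re = 1 - s.re := by simp
    rw [h4]
    exact le_trans (by linarith) ((le_max_right _ _).trans (le_max_left _ _))

end ext

/-! ### The Rankin-Selberg bound -/

lemma rsb_n {m : ℕ} {α : Fin m → ℕ → ℂ} (hα : ∀ j (p : ℕ), ‖α j p‖ ≤ 1) {σ : ℝ} (h1 : 1 < σ)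
    (h2 : σ ≤ 2) : RSb α σ (24 * m ^ 2 * (1 / (σ - 1))) := by
  obtain ⟨g1, g2⟩ := rsb_one (α := fun _ _ => 1) (fun _ _ => by simp) h1 h2
  have hle : ∀ x, rsT α σ x ≤ m ^ 2 * rsT (fun (_ : Fin 1) _ => (1 : ℂ)) σ x := fun x => by
    unfold rsT
    have h3 : ‖pw α x‖ ≤ m := by
      unfold pw
      refine (norm_sum_le _ _).trans ?_
      refine (Finset.sum_le_card_nsmul _ _ 1 fun j _ => ?_).trans ?_
      · rw [norm_pow]
        exact pow_le_one₀ (norm_nonneg _) (hα _ _)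
      · simp
    have h3' : ‖pw (fun (_ : Fin 1) _ => (1 : ℂ)) x‖ = 1 := by
      unfold pw
      simp
    have h4 := log_p x
    have h6 : 0 ≤ (nn x : ℝ) ^ (-σ) := by positivity
    have h5 : 0 ≤ Real.log (x.1 : ℕ) := by linarith
    rw [h3', one_pow, mul_one]
    calc Real.log (x.1 : ℕ) * ‖pw α x‖ ^ 2 * (nn x : ℝ) ^ (-σ) ≤
        Real.log (x.1 : ℕ) * (m : ℝ) ^ 2 * (nn x : ℝ) ^ (-σ) := by gcongr
      _ = _ := by ring
  have h0 : ∀ x, 0 ≤ rsT α σ x := fun x => by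
    unfold rsT
    have h4 := log_p x
    have h6 : 0 ≤ (nn x : ℝ) ^ (-σ) := by positivity
    have : 0 ≤ Real.log (x.1 : ℕ) := by linarith
    positivity
  have hs := g1.mul_left ((m : ℝ) ^ 2)
  refine ⟨Summable.of_nonneg_of_le h0 hle hs, ?_⟩
  refine ((Summable.of_nonneg_of_le h0 hle hs).tsum_le_tsum hle hs).trans ?_
  rw [tsum_mul_left]
  calc (m : ℝ) ^ 2 * ∑' x, rsT (fun (_ : Fin 1) _ => (1 : ℂ)) σ x ≤ (m : ℝ) ^ 2 * (24 / (σ - 1)) := by
        gcongr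
    _ = _ := by ring

section field

variable {K : Type} [Field K] [NumberField K]

lemma isModChar {𝔣 : Ideal (𝓞 K)} {ψ : Ideal (𝓞 K) →*₀ ℂ} (h : IsPrimChar K 𝔣 ψ)
    (htop : 𝔣 ≠ ⊤) : ∃ e : InfinitePlace K → ℕ, IsModChar 𝔣 e ψ := by
  obtain ⟨e, he, hc, hsig⟩ := Pool.Agent.Y772.G.t_sig K 𝔣 ψ h.ne_bot h.ray
  refine ⟨e, h.ne_bot, htop, he, hc, fun 𝔞 => ?_, hsig⟩
  by_cases h0 : 𝔞 = ⊥
  · subst h0
    have h1 : ψ (⊥ : Ideal (𝓞 K)) = 0 := map_zero ψ
    constructor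
    · intro h2
      exact absurd h1 h2
    · intro h2
      exfalso
      rw [Ideal.isCoprime_iff_sup_eq, bot_sup_eq] at h2
      exact htop h2
  · exact h.supp 𝔞 h0

/-- `N(𝔣) |d_K|` -/
noncomputable def cnd (𝔣 : Ideal (𝓞 K)) : ℝ :=
  ((Ideal.absNorm 𝔣 * Ideal.absNorm (differentIdeal ℤ (𝓞 K)) : ℕ) : ℝ)

lemma one_le_cnd {𝔣 : Ideal (𝓞 K)} (h : 𝔣 ≠ ⊥) : 1 ≤ cnd 𝔣 := by
  unfold cnd
  have h1 : Ideal.absNorm 𝔣 ≠ 0 := by
    rw [Ne, Ideal.absNorm_eq_zero_iff]; exact h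
  have h2 : Ideal.absNorm (differentIdeal ℤ (𝓞 K)) ≠ 0 := by
    rw [Ne, Ideal.absNorm_eq_zero_iff]; exact differentIdeal_ne_bot
  exact_mod_cast Nat.one_le_iff_ne_zero.mpr (Nat.mul_ne_zero h1 h2)

/-- the data of the L-function of a ray class character -/
theorem ray_dr2 {𝔣 : Ideal (𝓞 K)} {ψ : Ideal (𝓞 K) →*₀ ℂ} (h : IsPrimChar K 𝔣 ψ)
    {e : InfinitePlace K → ℕ} (he : IsModChar 𝔣 e ψ) :
    ∃ (F : ℂ → ℂ) (μ : Fin (Module.finrank ℚ K) → ℂ) (α : Fin (Module.finrank ℚ K) → ℕ → ℂ) (ε : ℂ)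
      (Λ : ℂ → ℂ), Differentiable ℂ F ∧ (∀ s : ℂ, 1 < s.re → F s = LI ψ s) ∧
      DR (24 * (Module.finrank ℚ K : ℝ) ^ 2) (cnd 𝔣) μ α ε Λ ∧
      (∀ s : ℂ, 0 < s.re → Xi (cnd 𝔣) Λ s = GG (cnd 𝔣) (ex e) s * F s) ∧
      (∀ s : ℂ, Xi (cnd 𝔣) Λ s = ε * conj (Xi (cnd 𝔣) Λ (1 - conj s))) ∧
      (∀ j p, ‖α j p‖ ≤ 1) ∧
      (∀ t : ℝ, cnd 𝔣 * (1 + |t|) ^ Module.finrank ℚ K ≤ HF.cond (cnd 𝔣) μ t) ∧
      (∀ t : ℝ, HF.cond (cnd 𝔣) μ t ≤ cnd 𝔣 * (2 + |t|) ^ Module.finrank ℚ K) ∧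
      (∀ j, μ j = 0 ∨ μ j = -1) ∧
      ∀ s : ℂ, 1 < s.re → Λ s = (∏ j, Gammaℝ (s - μ j)) * LI ψ s := by
  classical
  obtain ⟨F, hFE, hFL⟩ := fe_prim h he
  have hN1 : 1 ≤ cnd 𝔣 := one_le_cnd h.ne_bot
  have hN0 : 0 < cnd 𝔣 := by linarith
  have hNc : ((cnd 𝔣 : ℝ) : ℂ) ≠ 0 := by exact_mod_cast hN0.ne'
  obtain ⟨Ξ, hΞd, ⟨w, hw, hfe⟩, hΞ, hbd⟩ := ext_of hN0 hFE
  have hψ1 : ∀ 𝔞, ‖ψ 𝔞‖ ≤ 1 := he.norm_le_one
  set n := Module.finrank ℚ K with hn
  obtain ⟨eqv⟩ : Nonempty (Fin n ≃ (K →+* ℂ)) := by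
    refine ⟨(Fintype.equivFinOfCardEq ?_).symm⟩
    exact Pool.Agent.Y773.G.card_emb
  have hch : ∀ p : ℕ, ∃ α : Fin n → ℂ, (∀ j, ‖α j‖ ≤ 1) ∧ (p.Prime →
      ∀ s : ℂ, ∏ᶠ 𝔭 ∈ Ov K p, (1 - zz ψ s 𝔭) = ∏ j, (1 - α j * (p : ℂ) ^ (-s))) := fun p => by
    by_cases hp : p.Prime
    · obtain ⟨α, h1, h2⟩ := loc_factor ψ hψ1 ⟨p, hp⟩
      exact ⟨α, h1, fun _ => h2⟩
    · exact ⟨fun _ => 0, fun _ => by simp, fun h => absurd h hp⟩
  choose α hα1 hα2 using hch
  set μ : Fin n → ℂ := fun j => -((ex e (eqv j) : ℕ) : ℂ) with hμ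
  set Λ : ℂ → ℂ := fun s => (cnd 𝔣 : ℂ) ^ (-s / 2) * Ξ s with hΛ
  have hXi : ∀ s, Xi (cnd 𝔣) Λ s = Ξ s := fun s => by
    unfold Xi
    rw [hΛ]
    beta_reduce
    rw [← mul_assoc, ← cpow_add _ _ hNc]
    have : s / 2 + -s / 2 = 0 := by ring
    rw [this, cpow_zero, one_mul]
  have hgam : ∀ s : ℂ, ∏ j, Gammaℝ (s - μ j) = ∏ φ : K →+* ℂ, Gammaℝ (s + ex e φ) := fun s => by
    rw [← eqv.prod_comp]
    refine Finset.prod_congr rfl fun j _ => ?_
    rw [hμ]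
    beta_reduce
    rw [sub_neg_eq_add]
  have hcpd : ∀ s : ℂ, DifferentiableAt ℂ (fun s : ℂ => (cnd 𝔣 : ℂ) ^ (-s / 2)) s := fun s =>
    DifferentiableAt.const_cpow (by fun_prop) (Or.inl hNc)
  refine ⟨F, μ, fun j p => α p j, w, Λ, hFE.diff, hFL, ⟨⟨hN1, fun j => ?_, fun j p hp => ?_, hw, ?_,
    fun s hs => ?_, fun s => ?_, fun a b => ?_⟩, fun σ h1 h2 t => ?_⟩, fun s hs => ?_, fun s => ?_,
    fun j p => hα1 p j, fun t => ?_, fun t => ?_, fun j => ?_, fun s hs => ?_⟩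
  · rw [hμ]
    beta_reduce
    rw [neg_re, natCast_re]
    have : (0 : ℝ) ≤ (ex e (eqv j) : ℕ) := Nat.cast_nonneg _
    linarith
  · refine (hα1 p j).trans ?_
    rw [Real.one_le_sqrt]
    exact_mod_cast hp.one_lt.le
  · exact fun s => (hcpd s).mul (hΞd s)
  · rw [hΛ]
    beta_reduce
    rw [hΞ s (by linarith), hFL s (by linarith)]
    unfold GG
    have e1 : (cnd 𝔣 : ℂ) ^ (-s / 2) * (cnd 𝔣 : ℂ) ^ (s / 2) = 1 := by
      rw [← cpow_add _ _ hNc]
      have : -s / 2 + s / 2 = 0 := by ring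
      rw [this, cpow_zero]
    have e2 : LI ψ s = ∏' p : Nat.Primes, ∏ j, (1 - α p j * (p : ℂ) ^ (-s))⁻¹ := by
      rw [← (Pool.Agent.Y773.hasProd_LI hψ1 (s := s) (by linarith)).tprod_eq]
      refine tprod_congr fun p => ?_
      rw [hα2 p p.2 s, Finset.prod_inv_distrib]
    rw [← e2, hgam]
    linear_combination (∏ φ : K →+* ℂ, Gammaℝ (s + ex e φ)) * LI ψ s * e1
  · rw [hΛ]
    beta_reduce
    rw [map_mul, H353.E.conj_cpow_real hN0]
    have e1 : conj (-(1 - conj s) / 2) = -(1 - s) / 2 := by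
      rw [map_div₀, map_neg, map_sub, Complex.conj_conj, map_one, map_ofNat]
    rw [e1]
    have e2 : (cnd 𝔣 : ℂ) ^ (1 / 2 - s) * (cnd 𝔣 : ℂ) ^ (-(1 - s) / 2) = (cnd 𝔣 : ℂ) ^ (-s / 2) := by
      rw [← cpow_add _ _ hNc]
      congr 1
      ring
    rw [hfe s]
    linear_combination -w * conj (Ξ (1 - conj s)) * e2
  · obtain ⟨M, hM⟩ := hbd a b
    refine ⟨|M| + |Real.log (cnd 𝔣)| * (|a| + |b|), fun s h1 h2 => ?_⟩
    rw [hΛ]
    beta_reduce
    rw [norm_mul, Complex.norm_cpow_eq_rpow_re_of_pos hN0]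
    have e1 : (-s / 2).re = -s.re / 2 := by
      rw [show (2 : ℂ) = ((2 : ℝ) : ℂ) by norm_num, Complex.div_ofReal_re, neg_re]
    rw [e1, Real.rpow_def_of_pos hN0]
    have h3 : ‖Ξ s‖ ≤ Real.exp |M| := by
      refine (hM s h1 h2).trans ((le_abs_self M).trans ?_)
      have := Real.add_one_le_exp |M|
      linarith
    have h4 : Real.log (cnd 𝔣) * (-s.re / 2) ≤ |Real.log (cnd 𝔣)| * (|a| + |b|) := by
      refine (le_abs_self _).trans ?_
      rw [abs_mul]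
      refine mul_le_mul_of_nonneg_left ?_ (abs_nonneg _)
      rw [abs_le]
      have := neg_abs_le a
      have := le_abs_self b
      have := le_abs_self a
      have := neg_abs_le b
      have := abs_nonneg a
      have := abs_nonneg b
      constructor <;> linarith
    calc Real.exp (Real.log (cnd 𝔣) * (-s.re / 2)) * ‖Ξ s‖ ≤
        Real.exp (|Real.log (cnd 𝔣)| * (|a| + |b|)) * Real.exp |M| := by gcongr
      _ = Real.exp (|M| + |Real.log (cnd 𝔣)| * (|a| + |b|)) := by rw [← Real.exp_add]; ring_nf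
      _ ≤ _ := by
        apply Real.exp_le_exp.mpr
        have h5 : 0 ≤ |M| + |Real.log (cnd 𝔣)| * (|a| + |b|) := by positivity
        have h6 : 1 ≤ 1 + |s.im| := by linarith [abs_nonneg s.im]
        nlinarith
  · have h3 := rsb_n (α := fun j p => α p j) (fun j p => hα1 p j) h1 h2
    refine ⟨h3.1, h3.2.trans ?_⟩
    have h4 : 0 ≤ Real.log (cond (cnd 𝔣) μ t) := Real.log_nonneg (cond_ge hN1 t)
    gcongr
    linarith
  · rw [hXi, hΞ s hs]
  · rw [hXi, hXi]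
    exact hfe s
  · unfold HF.cond
    have h1 : (1 + |t|) ^ n = ∏ _j : Fin n, (1 + |t|) := by simp
    rw [h1]
    refine mul_le_mul_of_nonneg_left ?_ hN0.le
    refine Finset.prod_le_prod (fun j _ => by positivity) fun j _ => ?_
    have h2 : |t| ≤ ‖(t : ℂ) * I - μ j‖ := by
      refine le_trans (le_of_eq ?_) (Complex.abs_im_le_norm _)
      rw [hμ]
      simp
    linarith
  · unfold HF.cond
    have h1 : (2 + |t|) ^ n = ∏ _j : Fin n, (2 + |t|) := by simp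
    rw [h1]
    refine mul_le_mul_of_nonneg_left ?_ hN0.le
    refine Finset.prod_le_prod (fun j _ => by positivity) fun j _ => ?_
    have h2 : ‖(t : ℂ) * I - μ j‖ ≤ |t| + 1 := by
      refine (norm_sub_le _ _).trans ?_
      refine add_le_add (le_of_eq ?_) ?_
      · simp
      · rw [hμ]
        beta_reduce
        rw [norm_neg, Complex.norm_natCast]
        exact_mod_cast hFE.he _
    linarith
  · have h1 := hFE.he (eqv j)
    rw [hμ]
    beta_reduce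
    interval_cases h2 : ex e (eqv j)
    · left; simp
    · right; simp
  · rw [hΛ]
    beta_reduce
    rw [hΞ s (by linarith), hFL s hs, hgam]
    unfold GG
    have e1 : (cnd 𝔣 : ℂ) ^ (-s / 2) * (cnd 𝔣 : ℂ) ^ (s / 2) = 1 := by
      rw [← cpow_add _ _ hNc]
      have : -s / 2 + s / 2 = 0 := by ring
      rw [this, cpow_zero]
    linear_combination (∏ φ : K →+* ℂ, Gammaℝ (s + ex e φ)) * LI ψ s * e1

/-- the data of the L-function of a ray class character -/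
theorem ray_dr {𝔣 : Ideal (𝓞 K)} {ψ : Ideal (𝓞 K) →*₀ ℂ} (h : IsPrimChar K 𝔣 ψ)
    {e : InfinitePlace K → ℕ} (he : IsModChar 𝔣 e ψ) :
    ∃ (F : ℂ → ℂ) (μ : Fin (Module.finrank ℚ K) → ℂ) (α : Fin (Module.finrank ℚ K) → ℕ → ℂ) (ε : ℂ)
      (Λ : ℂ → ℂ), Differentiable ℂ F ∧ (∀ s : ℂ, 1 < s.re → F s = LI ψ s) ∧
      DR (24 * (Module.finrank ℚ K : ℝ) ^ 2) (cnd 𝔣) μ α ε Λ ∧
      (∀ s : ℂ, 0 < s.re → Xi (cnd 𝔣) Λ s = GG (cnd 𝔣) (ex e) s * F s) ∧
      (∀ s : ℂ, Xi (cnd 𝔣) Λ s = ε * conj (Xi (cnd 𝔣) Λ (1 - conj s))) ∧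
      (∀ j p, ‖α j p‖ ≤ 1) ∧
      (∀ t : ℝ, cnd 𝔣 * (1 + |t|) ^ Module.finrank ℚ K ≤ HF.cond (cnd 𝔣) μ t) ∧
      ∀ t : ℝ, HF.cond (cnd 𝔣) μ t ≤ cnd 𝔣 * (2 + |t|) ^ Module.finrank ℚ K := by
  obtain ⟨F, μ, α, ε, Λ, h1, h2, h3, h4, h5, h6, h7, h8, -, -⟩ := ray_dr2 h he
  exact ⟨F, μ, α, ε, Λ, h1, h2, h3, h4, h5, h6, h7, h8⟩

end field

end Pool.Agent.J4H34.AR
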